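import Mathlib

/-!
# Maximum `I,U`-families in a product of even chains

If every `e_i` is even then the maximum size `g` of an `I,U`-family in `M(e)` satisfies
`4 g = ∏ (e_i + 1) - 1 - ∑ e_i`.
-/

namespace Pool.Agent.Results.MP_a656b1_co.EvenChains

open Finset

/-- `M(e)`: integer vectors `a` with `0 ≤ a_i ≤ e_i`. -/
abbrev M {n : ℕ} (e : Fin n → ℕ) : Type := (i : Fin n) → Fin (e i + 1)

/-- `F` is an `I,U`-family: for all `a, b ∈ F` (not necessarily distinct) there are an index `i`
with `a_i + b_i > e_i` and an index `j` with `a_j + b_j < e_j`. -/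
def IsIU {n : ℕ} (e : Fin n → ℕ) (F : Finset (M e)) : Prop :=
  ∀ a ∈ F, ∀ b ∈ F, (∃ i, e i < (a i : ℕ) + (b i : ℕ)) ∧ (∃ j, (a j : ℕ) + (b j : ℕ) < e j)

/-- the complement of a vector -/
def neg {n : ℕ} {e : Fin n → ℕ} (a : M e) : M e := fun i => (a i).rev

/-- the centre -/
def c {n : ℕ} (e : Fin n → ℕ) : M e := fun i => ⟨e i / 2, by omega⟩

/-- twice the centred coordinate -/
def v {n : ℕ} {e : Fin n → ℕ} (a : M e) (i : Fin n) : ℤ := 2 * ((a i : ℕ) : ℤ) - e i

section

variable {n : ℕ} {e : Fin n → ℕ}

lemma neg_neg' (a : M e) : neg (neg a) = a := by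
  funext i; exact Fin.rev_rev _

lemma v_neg (a : M e) (i : Fin n) : v (neg a) i = - v a i := by
  have := (a i).2
  unfold v neg
  rw [Fin.val_rev]
  omega

lemma v_c (he : ∀ i, Even (e i)) (i : Fin n) : v (c e) i = 0 := by
  obtain ⟨m, hm⟩ := he i
  simp only [v, c]
  omega

lemma eq_c_iff (he : ∀ i, Even (e i)) (a : M e) (i : Fin n) : a i = c e i ↔ v a i = 0 := by
  obtain ⟨m, hm⟩ := he i
  rw [Fin.ext_iff]
  simp only [v, c]
  omega

lemma neg_c (he : ∀ i, Even (e i)) : neg (c e) = c e := by
  funext i
  rw [eq_c_iff he, v_neg, v_c he, neg_zero]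

lemma neg_eq_c_iff (he : ∀ i, Even (e i)) (a : M e) (i : Fin n) :
    neg a i = c e i ↔ a i = c e i := by
  rw [eq_c_iff he, eq_c_iff he, v_neg]
  omega

lemma v_mono {a b : M e} (h : a ≤ b) (i : Fin n) : v a i ≤ v b i := by
  have : (a i : ℕ) ≤ b i := h i
  unfold v
  omega

lemma le_neg {a b : M e} : a ≤ neg b ↔ ∀ i, v a i + v b i ≤ 0 := by
  constructor
  · intro h i
    have := v_mono h i
    rw [v_neg] at this
    linarith
  · intro h i
    have h1 := h i
    have h2 : (a i : ℕ) ≤ (neg b i : ℕ) := by
      have h3 := v_neg b i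
      unfold v at h1 h3
      omega
    exact h2

/-- slices -/
def S (e : Fin n → ℕ) (j : Fin n) (k : Fin (e j + 1)) : Finset (M e) :=
  univ.filter (fun a => a j = k ∧ ∀ i, j < i → a i = c e i)

lemma mem_S {j : Fin n} {k : Fin (e j + 1)} {a : M e} :
    a ∈ S e j k ↔ a j = k ∧ ∀ i, j < i → a i = c e i := by
  simp [S]

/-- index set of the slices -/
def I (e : Fin n → ℕ) : Finset (Σ j : Fin n, Fin (e j + 1)) :=
  univ.sigma (fun j => univ.erase (c e j))

lemma card_I : (I e).card = ∑ j, e j := by
  rw [I, card_sigma]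
  apply sum_congr rfl
  intro j _
  rw [card_erase_of_mem (mem_univ _), card_univ, Fintype.card_fin]
  omega

lemma sum_slices (f : M e → ℤ) (hf : f (c e) = 0) :
    ∑ a, f a = ∑ p ∈ I e, ∑ a ∈ S e p.1 p.2, f a := by
  classical
  rw [← sum_biUnion]
  · rw [← add_sum_erase univ f (mem_univ (c e)), hf, zero_add]
    apply sum_congr _ (fun _ _ => rfl)
    ext a
    rw [mem_erase, mem_biUnion]
    constructor
    · rintro ⟨hne, -⟩
      have hex : (univ.filter (fun j => a j ≠ c e j)).Nonempty := by
        by_contra hcon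
        rw [not_nonempty_iff_eq_empty, filter_eq_empty_iff] at hcon
        apply hne
        funext j
        have := hcon (mem_univ j)
        push Not at this
        exact this
      set j := (univ.filter (fun j => a j ≠ c e j)).max' hex with hj
      have hjm : a j ≠ c e j := (mem_filter.mp (max'_mem _ hex)).2
      refine ⟨⟨j, a j⟩, ?_, ?_⟩
      · rw [I, mem_sigma]
        exact ⟨mem_univ _, mem_erase.mpr ⟨hjm, mem_univ _⟩⟩
      · rw [mem_S]
        refine ⟨rfl, fun i hi => ?_⟩
        by_contra h
        have hi' : i ∈ univ.filter (fun j => a j ≠ c e j) := mem_filter.mpr ⟨mem_univ _, h⟩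
        have := le_max' _ i hi'
        exact absurd hi (not_lt.mpr this)
    · rintro ⟨p, hp, ha⟩
      refine ⟨?_, mem_univ _⟩
      rintro rfl
      rw [I, mem_sigma, mem_erase] at hp
      rw [mem_S] at ha
      exact hp.2.1 ha.1.symm
  · intro p hp q hq hne
    rw [Function.onFun, Finset.disjoint_left]
    intro a ha hb
    rw [mem_S] at ha hb
    rw [mem_coe, I, mem_sigma, mem_erase] at hp hq
    apply hne
    rcases lt_trichotomy p.1 q.1 with h | h | h
    · exact absurd (hb.1.symm.trans (ha.2 _ h)) hq.2.1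
    · obtain ⟨p1, p2⟩ := p
      obtain ⟨q1, q2⟩ := q
      simp only at h
      subst h
      simp only at ha hb
      rw [ha.1.symm.trans hb.1]
    · exact absurd (ha.1.symm.trans (hb.2 _ h)) hp.2.1

/-- odd monotone sign functions -/
structure OddMono (s : M e → ℤ) : Prop where
  mono : Monotone s
  odd : ∀ a, s (neg a) = - s a
  val : ∀ a, a ≠ c e → s a = 1 ∨ s a = -1

lemma OddMono.center (he : ∀ i, Even (e i)) {s : M e → ℤ} (hs : ∀ a, s (neg a) = - s a) :
    s (c e) = 0 := by
  have := hs (c e)
  rw [neg_c he] at this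
  omega

lemma sum_odd {s : M e → ℤ} (hs : ∀ a, s (neg a) = - s a) : ∑ a, s a = 0 := by
  have h1 : ∑ a, s a = ∑ a, s (neg a) := by
    apply sum_nbij' neg neg
    · intro a _; exact mem_univ _
    · intro a _; exact mem_univ _
    · intro a _; exact neg_neg' a
    · intro a _; exact neg_neg' a
    · intro a _; rw [neg_neg']
  simp only [hs, sum_neg_distrib] at h1
  omega

lemma slice_pos (he : ∀ i, Even (e i)) {s : M e → ℤ} (hs : OddMono s) (j : Fin n)
    (k : Fin (e j + 1)) (hk : c e j < k) : 1 ≤ ∑ a ∈ S e j k, s a := by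
  classical
  let S0 : Finset (M e) := univ.filter (fun a => ∀ i, j ≤ i → a i = c e i)
  have mem_S0 : ∀ a, a ∈ S0 ↔ ∀ i, j ≤ i → a i = c e i := fun a => by simp [S0]
  have h1 : ∑ a ∈ S e j k, s a = ∑ a ∈ S0, s (Function.update a j k) := by
    symm
    apply sum_nbij' (fun a => Function.update a j k) (fun a => Function.update a j (c e j))
    · intro a ha
      rw [mem_S0] at ha
      rw [mem_S]
      refine ⟨Function.update_self .., fun i hi => ?_⟩
      rw [Function.update_of_ne (ne_of_gt hi)]
      exact ha i hi.le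
    · intro a ha
      rw [mem_S] at ha
      rw [mem_S0]
      intro i hi
      rcases hi.lt_or_eq with h | h
      · rw [Function.update_of_ne (ne_of_gt h)]
        exact ha.2 i h
      · subst h
        exact Function.update_self ..
    · intro a ha
      rw [mem_S0] at ha
      simp only [Function.update_idem]
      rw [← ha j le_rfl, Function.update_eq_self]
    · intro a ha
      rw [mem_S] at ha
      simp only [Function.update_idem]
      rw [← ha.1, Function.update_eq_self]
    · intro a _; rfl
  have h2 : ∑ a ∈ S0, s a = 0 := by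
    have h3 : ∑ a ∈ S0, s a = ∑ a ∈ S0, s (neg a) := by
      apply sum_nbij' neg neg
      · intro a ha
        rw [mem_S0] at ha ⊢
        intro i hi
        rw [neg_eq_c_iff he]
        exact ha i hi
      · intro a ha
        rw [mem_S0] at ha ⊢
        intro i hi
        rw [neg_eq_c_iff he]
        exact ha i hi
      · intro a _; exact neg_neg' a
      · intro a _; exact neg_neg' a
      · intro a _; rw [neg_neg']
    simp only [hs.odd, sum_neg_distrib] at h3
    omega
  have hle : ∀ a ∈ S0, a ≤ Function.update a j k := by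
    intro a ha i
    rw [mem_S0] at ha
    by_cases hij : i = j
    · subst hij
      rw [Function.update_self, ha i le_rfl]
      exact hk.le
    · rw [Function.update_of_ne hij]
  have h3 : 1 ≤ ∑ a ∈ S0, (s (Function.update a j k) - s a) := by
    have hcS : c e ∈ S0 := by rw [mem_S0]; intro i _; rfl
    have h4 : s (Function.update (c e) j k) - s (c e) ≤
        ∑ a ∈ S0, (s (Function.update a j k) - s a) :=
      single_le_sum (f := fun a => s (Function.update a j k) - s a)
        (fun a ha => sub_nonneg.mpr (hs.mono (hle a ha))) hcS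
    have h5 : s (c e) = 0 := OddMono.center he hs.odd
    have h6 : Function.update (c e) j k ≠ c e := by
      intro h
      have := congrFun h j
      rw [Function.update_self] at this
      exact absurd this (ne_of_gt hk)
    have h7 : 0 ≤ s (Function.update (c e) j k) := by
      rw [← h5]
      exact hs.mono (hle _ hcS)
    rcases hs.val _ h6 with h8 | h8
    · rw [h8, h5] at h4
      linarith
    · omega
  rw [sum_sub_distrib, h2] at h3
  rw [h1]
  linarith

lemma slice_neg (he : ∀ i, Even (e i)) (f : M e → ℤ) (j : Fin n) (k : Fin (e j + 1)) :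
    ∑ a ∈ S e j k, f (neg a) = ∑ a ∈ S e j k.rev, f a := by
  apply sum_nbij' neg neg
  · intro a ha
    rw [mem_S] at ha ⊢
    refine ⟨by rw [neg, ha.1], fun i hi => ?_⟩
    rw [neg_eq_c_iff he]
    exact ha.2 i hi
  · intro a ha
    rw [mem_S] at ha ⊢
    refine ⟨by rw [neg, ha.1, Fin.rev_rev], fun i hi => ?_⟩
    rw [neg_eq_c_iff he]
    exact ha.2 i hi
  · intro a _; exact neg_neg' a
  · intro a _; exact neg_neg' a
  · intro a _; rfl

lemma slice_fkg {s t : M e → ℤ} (hs : Monotone s) (ht : Monotone t) (hs1 : ∀ a, -1 ≤ s a)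
    (ht1 : ∀ a, -1 ≤ t a) (j : Fin n) (k : Fin (e j + 1)) :
    (∑ a ∈ S e j k, s a) * (∑ a ∈ S e j k, t a) ≤ (S e j k).card * ∑ a ∈ S e j k, s a * t a := by
  classical
  have key := fkg (fun a => s a + 1) (fun a => t a + 1)
    (fun a => if a ∈ S e j k then (1 : ℤ) else 0)
    (by intro a; simp only [Pi.zero_apply]; split_ifs <;> norm_num)
    (by intro a; simp only [Pi.zero_apply]; linarith [hs1 a])
    (by intro a; simp only [Pi.zero_apply]; linarith [ht1 a])
    (fun a b h => by have := hs h; simp only; linarith)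
    (fun a b h => by have := ht h; simp only; linarith)
    (by
      intro a b
      by_cases ha : a ∈ S e j k
      · by_cases hb : b ∈ S e j k
        · have h1 : a ⊓ b ∈ S e j k := by
            rw [mem_S] at ha hb ⊢
            refine ⟨?_, fun i hi => ?_⟩
            · rw [Pi.inf_apply, ha.1, hb.1, inf_idem]
            · rw [Pi.inf_apply, ha.2 i hi, hb.2 i hi, inf_idem]
          have h2 : a ⊔ b ∈ S e j k := by
            rw [mem_S] at ha hb ⊢
            refine ⟨?_, fun i hi => ?_⟩
            · rw [Pi.sup_apply, ha.1, hb.1, sup_idem]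
            · rw [Pi.sup_apply, ha.2 i hi, hb.2 i hi, sup_idem]
          simp [ha, hb, h1, h2]
        · simp only [hb, if_false, mul_zero]
          split_ifs <;> simp
      · simp only [ha, if_false, zero_mul]
        split_ifs <;> simp)
  simp only [ite_mul, one_mul, zero_mul, sum_ite_mem, univ_inter] at key
  simp only [sum_add_distrib, sum_const, nsmul_eq_mul, mul_one] at key
  have e1 : ∑ a ∈ S e j k, (s a + 1) * (t a + 1) = ∑ a ∈ S e j k, s a * t a +
      ∑ a ∈ S e j k, s a + ∑ a ∈ S e j k, t a + (S e j k).card := by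
    rw [card_eq_sum_ones]
    push_cast
    rw [← sum_add_distrib, ← sum_add_distrib, ← sum_add_distrib]
    apply sum_congr rfl
    intro a _
    ring
  rw [e1] at key
  nlinarith

lemma slice_inner (he : ∀ i, Even (e i)) {s t : M e → ℤ} (hs : OddMono s) (ht : OddMono t)
    (j : Fin n) (k : Fin (e j + 1)) (hk : k ≠ c e j) :
    1 ≤ ∑ a ∈ S e j k, s a * t a := by
  have lb : ∀ {s : M e → ℤ}, OddMono s → ∀ a, -1 ≤ s a := by
    intro s hs a
    by_cases ha : a = c e
    · rw [ha, OddMono.center he hs.odd]; norm_num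
    · rcases hs.val a ha with h | h <;> omega
  have h1 := slice_fkg hs.mono ht.mono (lb hs) (lb ht) j k
  have h2 : 1 ≤ (∑ a ∈ S e j k, s a) * (∑ a ∈ S e j k, t a) := by
    rcases lt_or_gt_of_ne hk with h | h
    · have hrev : c e j < k.rev := by
        obtain ⟨m, hm⟩ := he j
        have h3 : (k : ℕ) < e j / 2 := h
        change e j / 2 < (k.rev : ℕ)
        rw [Fin.val_rev]
        omega
      have h3 : ∀ {s : M e → ℤ}, OddMono s → ∑ a ∈ S e j k, s a ≤ -1 := by
        intro s hs
        have h4 := slice_neg he s j k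
        simp only [hs.odd, sum_neg_distrib] at h4
        have h5 := slice_pos he hs j k.rev hrev
        omega
      have h4 := h3 hs
      have h5 := h3 ht
      nlinarith
    · have h4 := slice_pos he hs j k h
      have h5 := slice_pos he ht j k h
      nlinarith
  have h3 : (0 : ℤ) ≤ (S e j k).card := by positivity
  by_contra hcon
  push Not at hcon
  nlinarith

lemma inner_ge (he : ∀ i, Even (e i)) {s t : M e → ℤ} (hs : OddMono s) (ht : OddMono t) :
    (∑ j, e j : ℤ) ≤ ∑ a, s a * t a := by
  rw [sum_slices (fun a => s a * t a) (by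
    rw [OddMono.center he hs.odd, zero_mul])]
  have h1 : (∑ j, e j : ℤ) = ∑ p ∈ I e, (1 : ℤ) := by
    rw [sum_const, card_I]
    simp
  rw [h1]
  apply sum_le_sum
  intro p hp
  rw [I, mem_sigma, mem_erase] at hp
  exact slice_inner he hs ht p.1 p.2 hp.2.1

/-! ### maximal intersecting families -/

/-- `I`-families -/
def IsI (U : Finset (M e)) : Prop := ∀ a ∈ U, ∀ b ∈ U, ¬ a ≤ neg b

lemma maxI (he : ∀ i, Even (e i)) (F : Finset (M e)) (hF : IsI F) :
    ∃ U : Finset (M e), F ⊆ U ∧ IsI U ∧ (∀ a b, a ∈ U → a ≤ b → b ∈ U) ∧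
      (∀ a, a ≠ c e → a ∈ U ∨ neg a ∈ U) := by
  classical
  obtain ⟨U, hFU, hU⟩ := Finite.exists_le_maximal (p := fun U : Finset (M e) => IsI U) hF
  have hUI : IsI U := hU.prop
  have hmax : ∀ a, IsI (insert a U) → a ∈ U := by
    intro a ha
    have := hU.le_of_ge ha (subset_insert a U)
    exact this (mem_insert_self a U)
  have hup : ∀ a b, a ∈ U → a ≤ b → b ∈ U := by
    intro a b ha hab
    apply hmax
    intro x hx y hy hxy
    have hb : ∀ y ∈ insert b U, ∃ y' ∈ U, y' ≤ y := by
      intro y hy
      rcases mem_insert.mp hy with rfl | h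
      · exact ⟨a, ha, hab⟩
      · exact ⟨y, h, le_rfl⟩
    obtain ⟨x', hx', hxx⟩ := hb x hx
    obtain ⟨y', hy', hyy⟩ := hb y hy
    apply hUI x' hx' y' hy'
    rw [le_neg] at hxy ⊢
    intro i
    have h1 := v_mono hxx i
    have h2 := v_mono hyy i
    have h3 := hxy i
    linarith
  refine ⟨U, hFU, hUI, hup, ?_⟩
  -- if some coordinate of `a` is above the centre and `neg a ∉ U` then `a ∈ U`
  have key : ∀ a : M e, (∃ i, 0 < v a i) → neg a ∉ U → a ∈ U := by
    rintro a ⟨i, hi⟩ hna
    apply hmax
    intro x hx y hy hxy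
    rcases mem_insert.mp hx with rfl | hx'
    · rcases mem_insert.mp hy with rfl | hy'
      · have := le_neg.mp hxy i
        linarith
      · apply hna
        apply hup y _ hy'
        rw [le_neg]
        intro i
        have := le_neg.mp hxy i
        linarith
    · rcases mem_insert.mp hy with rfl | hy'
      · exact hna (hup x _ hx' hxy)
      · exact hUI x hx' y hy' hxy
  intro a hne
  by_cases hna : neg a ∈ U
  · exact Or.inr hna
  by_cases haU : a ∈ U
  · exact Or.inl haU
  exfalso
  have hex : ∃ i, v a i ≠ 0 := by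
    by_contra hcon
    push Not at hcon
    apply hne
    funext i
    rw [eq_c_iff he]
    exact hcon i
  obtain ⟨i, hi⟩ := hex
  rcases lt_or_gt_of_ne hi with h | h
  · apply hna
    apply key
    · exact ⟨i, by rw [v_neg]; linarith⟩
    · rw [neg_neg']; exact haU
  · exact haU (key a ⟨i, h⟩ hna)

open Classical in
/-- the sign function of a maximal intersecting family -/
noncomputable def sg (U : Finset (M e)) (a : M e) : ℤ :=
  (if a ∈ U then 1 else 0) - (if neg a ∈ U then 1 else 0)

lemma not_both {U : Finset (M e)} (hU : IsI U) (a : M e) : ¬ (a ∈ U ∧ neg a ∈ U) := by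
  rintro ⟨h1, h2⟩
  apply hU a h1 (neg a) h2
  rw [neg_neg']

lemma sg_oddMono {U : Finset (M e)} (hU : IsI U)
    (hup : ∀ a b, a ∈ U → a ≤ b → b ∈ U) (hor : ∀ a, a ≠ c e → a ∈ U ∨ neg a ∈ U) :
    OddMono (sg U) := by
  classical
  refine ⟨?_, ?_, ?_⟩
  · intro a b hab
    have hab' : neg b ≤ neg a := fun i => Fin.rev_le_rev.mpr (hab i)
    unfold sg
    have h1 : (if a ∈ U then (1 : ℤ) else 0) ≤ (if b ∈ U then 1 else 0) := by
      by_cases h : a ∈ U
      · rw [if_pos h, if_pos (hup a b h hab)]
      · rw [if_neg h]; split_ifs <;> norm_num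
    have h2 : (if neg b ∈ U then (1 : ℤ) else 0) ≤ (if neg a ∈ U then 1 else 0) := by
      by_cases h : neg b ∈ U
      · rw [if_pos h, if_pos (hup _ _ h hab')]
      · rw [if_neg h]; split_ifs <;> norm_num
    linarith
  · intro a
    unfold sg
    rw [neg_neg']
    ring
  · intro a ha
    have h1 := not_both hU a
    unfold sg
    rcases hor a ha with h | h
    · have h2 : neg a ∉ U := fun h' => h1 ⟨h, h'⟩
      simp [h, h2]
    · have h2 : a ∉ U := fun h' => h1 ⟨h', h⟩
      simp [h, h2]

/-- counting -/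
lemma count_eq (he : ∀ i, Even (e i)) {s t : M e → ℤ} (hs : ∀ a, s (neg a) = - s a)
    (ht : ∀ a, t (neg a) = - t a) (hs1 : ∀ a, a ≠ c e → s a = 1 ∨ s a = -1)
    (ht1 : ∀ a, a ≠ c e → t a = 1 ∨ t a = -1) :
    4 * ((univ.filter (fun a : M e => s a = 1 ∧ t a = -1)).card : ℤ) + 1 + ∑ a, s a * t a =
      ∏ i, ((e i : ℤ) + 1) := by
  classical
  have h1 : ∑ a : M e, (1 + s a) * (1 - t a) =
      4 * ((univ.filter (fun a : M e => s a = 1 ∧ t a = -1)).card : ℤ) + 1 := by
    rw [card_filter]
    push_cast
    rw [mul_sum]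
    have h2 : ∀ a : M e, (1 + s a) * (1 - t a) =
        4 * (if s a = 1 ∧ t a = -1 then 1 else 0) + (if a = c e then 1 else 0) := by
      intro a
      by_cases ha : a = c e
      · have e1 := OddMono.center he hs
        have e2 := OddMono.center he ht
        rw [ha, e1, e2]
        simp
      · rw [if_neg ha]
        rcases hs1 a ha with h | h <;> rcases ht1 a ha with h' | h' <;> rw [h, h'] <;> norm_num
    rw [sum_congr rfl (fun a _ => h2 a), sum_add_distrib, sum_ite_eq' univ (c e)]
    simp
  have h2 : ∑ a : M e, (1 + s a) * (1 - t a) = ∏ i, ((e i : ℤ) + 1) - ∑ a, s a * t a := by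
    have h3 : ∀ a : M e, (1 + s a) * (1 - t a) = 1 + s a - t a - s a * t a := by
      intro a; ring
    rw [sum_congr rfl (fun a _ => h3 a), sum_sub_distrib, sum_sub_distrib, sum_add_distrib,
      sum_odd hs, sum_odd ht]
    simp
  linarith

lemma upper (he : ∀ i, Even (e i)) (F : Finset (M e)) (hF : IsIU e F) :
    4 * (F.card : ℤ) + 1 + ∑ i, (e i : ℤ) ≤ ∏ i, ((e i : ℤ) + 1) := by
  classical
  have hI : IsI F := by
    intro a ha b hb hab
    obtain ⟨⟨i, hi⟩, -⟩ := hF a ha b hb
    have h1 := le_neg.mp hab i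
    unfold v at h1
    omega
  have hI' : IsI (F.image neg) := by
    intro a ha b hb hab
    rw [mem_image] at ha hb
    obtain ⟨a', ha', rfl⟩ := ha
    obtain ⟨b', hb', rfl⟩ := hb
    obtain ⟨-, ⟨i, hi⟩⟩ := hF a' ha' b' hb'
    have h1 := le_neg.mp hab i
    rw [v_neg, v_neg] at h1
    unfold v at h1
    omega
  obtain ⟨U, hFU, hUI, hup, hor⟩ := maxI he F hI
  obtain ⟨D, hFD, hDI, hdn, hor'⟩ := maxI he (F.image neg) hI'
  have hs := sg_oddMono hUI hup hor
  have ht := sg_oddMono hDI hdn hor'
  have hcount := count_eq he hs.odd ht.odd hs.val ht.val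
  have hinner := inner_ge he hs ht
  have hsub : F ⊆ univ.filter (fun a : M e => sg U a = 1 ∧ sg D a = -1) := by
    intro a ha
    rw [mem_filter]
    refine ⟨mem_univ _, ?_, ?_⟩
    · have h1 : a ∈ U := hFU ha
      have h2 : neg a ∉ U := fun h' => not_both hUI a ⟨h1, h'⟩
      simp [sg, h1, h2]
    · have h1 : neg a ∈ D := hFD (mem_image_of_mem _ ha)
      have h2 : a ∉ D := fun h' => not_both hDI a ⟨h', h1⟩
      simp [sg, h1, h2]
  have hcard : (F.card : ℤ) ≤
      ((univ.filter (fun a : M e => sg U a = 1 ∧ sg D a = -1)).card : ℤ) := by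
    exact_mod_cast card_le_card hsub
  linarith

/-! ### the extremal family -/

/-- the set of non-central coordinates -/
def supp (a : M e) : Finset (Fin n) := univ.filter (fun i => v a i ≠ 0)

lemma mem_supp {a : M e} {i : Fin n} : i ∈ supp a ↔ v a i ≠ 0 := by simp [supp]

/-- sign at the last non-central coordinate -/
noncomputable def sLast (a : M e) : ℤ :=
  if h : (supp a).Nonempty then Int.sign (v a ((supp a).max' h)) else 0

/-- sign at the first non-central coordinate -/
noncomputable def sFirst (a : M e) : ℤ :=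
  if h : (supp a).Nonempty then Int.sign (v a ((supp a).min' h)) else 0

lemma supp_neg (a : M e) : supp (neg a) = supp a := by
  unfold supp
  apply filter_congr
  intro i _
  rw [v_neg]
  omega

lemma supp_nonempty (he : ∀ i, Even (e i)) {a : M e} (ha : a ≠ c e) : (supp a).Nonempty := by
  by_contra hcon
  rw [not_nonempty_iff_eq_empty] at hcon
  apply ha
  funext i
  rw [eq_c_iff he]
  by_contra h
  have : i ∈ supp a := mem_filter.mpr ⟨mem_univ _, h⟩
  rw [hcon] at this
  simp at this

lemma sLast_neg (a : M e) : sLast (neg a) = - sLast a := by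
  unfold sLast
  simp only [supp_neg]
  split_ifs with h
  · rw [v_neg, Int.sign_neg]
  · simp

lemma sFirst_neg (a : M e) : sFirst (neg a) = - sFirst a := by
  unfold sFirst
  simp only [supp_neg]
  split_ifs with h
  · rw [v_neg, Int.sign_neg]
  · simp

lemma sign_val {z : ℤ} (hz : z ≠ 0) : Int.sign z = 1 ∨ Int.sign z = -1 := by
  rcases lt_or_gt_of_ne hz with h | h
  · exact Or.inr (Int.sign_eq_neg_one_of_neg h)
  · exact Or.inl (Int.sign_eq_one_of_pos h)

lemma sLast_val (he : ∀ i, Even (e i)) (a : M e) (ha : a ≠ c e) :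
    sLast a = 1 ∨ sLast a = -1 := by
  unfold sLast
  rw [dif_pos (supp_nonempty he ha)]
  exact sign_val (mem_supp.mp (max'_mem _ _))

lemma sFirst_val (he : ∀ i, Even (e i)) (a : M e) (ha : a ≠ c e) :
    sFirst a = 1 ∨ sFirst a = -1 := by
  unfold sFirst
  rw [dif_pos (supp_nonempty he ha)]
  exact sign_val (mem_supp.mp (min'_mem _ _))

/-- characterisation of the sign at the last non-central coordinate -/
lemma sLast_eq {a : M e} {j : Fin n} (hj : v a j ≠ 0) (h : ∀ i, j < i → v a i = 0) :
    sLast a = Int.sign (v a j) := by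
  have hm : j ∈ supp a := mem_filter.mpr ⟨mem_univ _, hj⟩
  unfold sLast
  rw [dif_pos ⟨j, hm⟩]
  congr 2
  apply le_antisymm
  · apply max'_le
    intro i hi
    by_contra hcon
    push Not at hcon
    exact (mem_filter.mp hi).2 (h i hcon)
  · exact le_max' _ _ hm

lemma sFirst_eq {a : M e} {j : Fin n} (hj : v a j ≠ 0) (h : ∀ i, i < j → v a i = 0) :
    sFirst a = Int.sign (v a j) := by
  have hm : j ∈ supp a := mem_filter.mpr ⟨mem_univ _, hj⟩
  unfold sFirst
  rw [dif_pos ⟨j, hm⟩]
  congr 2
  apply le_antisymm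
  · exact min'_le _ _ hm
  · apply le_min'
    intro i hi
    by_contra hcon
    push Not at hcon
    exact (mem_filter.mp hi).2 (h i hcon)

lemma exists_first {a : M e} (hne : (supp a).Nonempty) :
    ∃ j, v a j ≠ 0 ∧ ∀ i, i < j → v a i = 0 := by
  refine ⟨(supp a).min' hne, mem_supp.mp (min'_mem _ _), ?_⟩
  intro i hi
  by_contra h
  have hm : i ∈ supp a := mem_filter.mpr ⟨mem_univ _, h⟩
  exact absurd hi (not_lt.mpr (min'_le _ _ hm))

/-- reflect the coordinates below `j` -/
def low (j : Fin n) (a : M e) : M e := fun i => if i < j then (a i).rev else a i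

lemma v_low (j : Fin n) (a : M e) (i : Fin n) :
    v (low j a) i = if i < j then - v a i else v a i := by
  unfold low
  by_cases h : i < j
  · rw [if_pos h]
    have := v_neg a i
    unfold v neg at *
    simp only [if_pos h]
    exact this
  · rw [if_neg h]
    unfold v
    simp only [if_neg h]

lemma low_low (j : Fin n) (a : M e) : low j (low j a) = a := by
  funext i
  unfold low
  by_cases h : i < j
  · simp only [if_pos h, Fin.rev_rev]
  · simp only [if_neg h]

/-- each slice contributes exactly one -/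
lemma slice_one (he : ∀ i, Even (e i)) (j : Fin n) (k : Fin (e j + 1)) (hk : k ≠ c e j) :
    ∑ a ∈ S e j k, sLast a * sFirst a = 1 := by
  classical
  set a0 : M e := Function.update (c e) j k with ha0
  have hv0 : ∀ i, i ≠ j → v a0 i = 0 := by
    intro i hi
    rw [← eq_c_iff he, ha0, Function.update_of_ne hi]
  have ha0S : a0 ∈ S e j k := by
    rw [mem_S]
    refine ⟨Function.update_self .., fun i hi => ?_⟩
    rw [eq_c_iff he]
    exact hv0 i (ne_of_gt hi)
  have hvj : ∀ a ∈ S e j k, v a j ≠ 0 := by
    intro a ha h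
    rw [mem_S] at ha
    rw [← eq_c_iff he, ha.1] at h
    exact hk h
  have hlast : ∀ a ∈ S e j k, sLast a = Int.sign (v a j) := by
    intro a ha
    apply sLast_eq (hvj a ha)
    intro i hi
    rw [← eq_c_iff he]
    exact (mem_S.mp ha).2 i hi
  rw [← add_sum_erase _ _ ha0S]
  have h1 : sLast a0 * sFirst a0 = 1 := by
    rw [hlast a0 ha0S, sFirst_eq (hvj a0 ha0S) (fun i hi => hv0 i (ne_of_lt hi))]
    rcases sign_val (hvj a0 ha0S) with h | h <;> rw [h] <;> norm_num
  have hlowS : ∀ a ∈ S e j k, low j a ∈ S e j k := by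
    intro a ha
    rw [mem_S] at ha ⊢
    refine ⟨by rw [low, if_neg (lt_irrefl j)]; exact ha.1, fun i hi => ?_⟩
    rw [low, if_neg (not_lt.mpr hi.le)]
    exact ha.2 i hi
  -- elements other than `a0` have a non-central coordinate below `j`
  have hfirst : ∀ a ∈ (S e j k).erase a0, ∃ l, l < j ∧ v a l ≠ 0 ∧ ∀ i, i < l → v a i = 0 := by
    intro a ha
    rw [mem_erase] at ha
    obtain ⟨l, hl1, hl2⟩ := exists_first (a := a) ⟨j, mem_filter.mpr ⟨mem_univ _, hvj a ha.2⟩⟩
    refine ⟨l, ?_, hl1, hl2⟩
    by_contra hcon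
    push Not at hcon
    apply ha.1
    funext i
    rcases lt_trichotomy i j with h | h | h
    · rw [ha0, Function.update_of_ne (ne_of_lt h), eq_c_iff he]
      exact hl2 i (lt_of_lt_of_le h hcon)
    · subst h
      rw [ha0, Function.update_self]
      exact (mem_S.mp ha.2).1
    · rw [ha0, Function.update_of_ne (ne_of_gt h)]
      exact (mem_S.mp ha.2).2 i h
  have hflow : ∀ a ∈ (S e j k).erase a0, sFirst (low j a) = - sFirst a := by
    intro a ha
    obtain ⟨l, hl0, hl1, hl2⟩ := hfirst a ha
    rw [sFirst_eq hl1 hl2]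
    have h3 : v (low j a) l = - v a l := by rw [v_low, if_pos hl0]
    rw [sFirst_eq (j := l) (by rw [h3]; omega) (by
      intro i hi
      rw [v_low, hl2 i hi]
      split_ifs <;> simp), h3, Int.sign_neg]
  have hlowe : ∀ a ∈ (S e j k).erase a0, low j a ∈ (S e j k).erase a0 := by
    intro a ha
    rw [mem_erase]
    refine ⟨?_, hlowS a (mem_erase.mp ha).2⟩
    intro h
    obtain ⟨l, hl0, hl1, -⟩ := hfirst a ha
    have h3 : v (low j a) l = - v a l := by rw [v_low, if_pos hl0]
    rw [h, hv0 l (ne_of_lt hl0)] at h3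
    omega
  have h2 : ∑ a ∈ (S e j k).erase a0, sLast a * sFirst a = 0 := by
    have h3 : ∑ a ∈ (S e j k).erase a0, sLast a * sFirst a =
        ∑ a ∈ (S e j k).erase a0, sLast (low j a) * sFirst (low j a) := by
      apply sum_nbij' (low j) (low j) hlowe hlowe
      · intro a _; exact low_low j a
      · intro a _; exact low_low j a
      · intro a _; rw [low_low]
    have h4 : ∑ a ∈ (S e j k).erase a0, sLast (low j a) * sFirst (low j a) =
        - ∑ a ∈ (S e j k).erase a0, sLast a * sFirst a := by
      rw [← sum_neg_distrib]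
      apply sum_congr rfl
      intro a ha
      have haS := (mem_erase.mp ha).2
      rw [hflow a ha, hlast _ (hlowS a haS), hlast a haS, v_low, if_neg (lt_irrefl j)]
      ring
    omega
  rw [h1, h2]
  norm_num

lemma lower (he : ∀ i, Even (e i)) : ∃ F : Finset (M e), IsIU e F ∧
    4 * (F.card : ℤ) + 1 + ∑ i, (e i : ℤ) = ∏ i, ((e i : ℤ) + 1) := by
  classical
  refine ⟨univ.filter (fun a : M e => sLast a = 1 ∧ sFirst a = -1), ?_, ?_⟩
  · intro a ha b hb
    rw [mem_filter] at ha hb
    have hna : (supp a).Nonempty := by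
      by_contra h
      have := ha.2.1
      rw [sLast, dif_neg h] at this
      norm_num at this
    have hnb : (supp b).Nonempty := by
      by_contra h
      have := hb.2.1
      rw [sLast, dif_neg h] at this
      norm_num at this
    constructor
    · -- last coordinate
      have hu : (supp a ∪ supp b).Nonempty := hna.mono subset_union_left
      set j := (supp a ∪ supp b).max' hu with hj
      have hz : ∀ x : M e, (supp x ⊆ supp a ∪ supp b) → ∀ i, j < i → v x i = 0 := by
        intro x hx i hi
        by_contra h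
        have hm : i ∈ supp a ∪ supp b := hx (mem_filter.mpr ⟨mem_univ _, h⟩)
        exact absurd hi (not_lt.mpr (le_max' _ _ hm))
      have hge : ∀ x : M e, sLast x = 1 → (supp x ⊆ supp a ∪ supp b) → 0 ≤ v x j := by
        intro x hx hsub
        by_cases h0 : v x j = 0
        · rw [h0]
        · rw [sLast_eq h0 (hz x hsub)] at hx
          exact (Int.sign_eq_one_iff_pos.mp hx).le
      have h1 := hge a ha.2.1 subset_union_left
      have h2 := hge b hb.2.1 subset_union_right
      have h3 : v a j ≠ 0 ∨ v b j ≠ 0 := by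
        rcases mem_union.mp (max'_mem _ hu) with h | h
        · exact Or.inl (mem_filter.mp h).2
        · exact Or.inr (mem_filter.mp h).2
      refine ⟨j, ?_⟩
      unfold v at h1 h2 h3
      omega
    · have hu : (supp a ∪ supp b).Nonempty := hna.mono subset_union_left
      set j := (supp a ∪ supp b).min' hu with hj
      have hz : ∀ x : M e, (supp x ⊆ supp a ∪ supp b) → ∀ i, i < j → v x i = 0 := by
        intro x hx i hi
        by_contra h
        have hm : i ∈ supp a ∪ supp b := hx (mem_filter.mpr ⟨mem_univ _, h⟩)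
        exact absurd hi (not_lt.mpr (min'_le _ _ hm))
      have hge : ∀ x : M e, sFirst x = -1 → (supp x ⊆ supp a ∪ supp b) → v x j ≤ 0 := by
        intro x hx hsub
        by_cases h0 : v x j = 0
        · rw [h0]
        · rw [sFirst_eq h0 (hz x hsub)] at hx
          exact (Int.sign_eq_neg_one_iff_neg.mp hx).le
      have h1 := hge a ha.2.2 subset_union_left
      have h2 := hge b hb.2.2 subset_union_right
      have h3 : v a j ≠ 0 ∨ v b j ≠ 0 := by
        rcases mem_union.mp (min'_mem _ hu) with h | h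
        · exact Or.inl (mem_filter.mp h).2
        · exact Or.inr (mem_filter.mp h).2
      refine ⟨j, ?_⟩
      unfold v at h1 h2 h3
      omega
  · have hcount := count_eq he sLast_neg sFirst_neg (sLast_val he) (sFirst_val he)
    have hsum : ∑ a : M e, sLast a * sFirst a = ∑ i, (e i : ℤ) := by
      rw [sum_slices (fun a => sLast a * sFirst a) (by
        rw [OddMono.center he sLast_neg, zero_mul])]
      have h1 : ∀ p ∈ I e, ∑ a ∈ S e p.1 p.2, sLast a * sFirst a = 1 := by
        intro p hp
        rw [I, mem_sigma, mem_erase] at hp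
        exact slice_one he p.1 p.2 hp.2.1
      rw [sum_congr rfl h1, sum_const, card_I]
      simp
    rw [hsum] at hcount
    exact hcount

end

/-- **The maximum size of an `I,U`-family in a product of even chains.** -/
theorem result : ∀ (n : ℕ) (e : Fin n → ℕ), (∀ i, Even (e i)) →
    ∃ g : ℕ, IsGreatest {m : ℕ | ∃ F : Finset (M e), IsIU e F ∧ F.card = m} g ∧
      4 * g + 1 + ∑ i, e i = ∏ i, (e i + 1) := by
  intro n e he
  obtain ⟨F, hF, hcard⟩ := lower he
  refine ⟨F.card, ⟨⟨F, hF, rfl⟩, ?_⟩, by exact_mod_cast hcard⟩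
  rintro m ⟨G, hG, rfl⟩
  have := upper he G hG
  have h2 : (G.card : ℤ) ≤ F.card := by linarith
  exact_mod_cast h2

end Pool.Agent.Results.MP_a656b1_co.EvenChains
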